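import Pool.Agent.Lib.MP_c5b475_co.Few.LAB
import Pool.Agent.Lib.MP_c5b475_co.Few.LDH

set_option autoImplicit false

/-!
# Trees with few non-leaf vertices decompose `K_{n,n}`

Every tree with `n ≥ 10^10 k` edges and at most `k` non-leaf vertices decomposes `K_{n,n}`, every
nearly complete `n`-regular bipartite graph and every `n`-regular bipartite graph with a factor into
complete bipartite graphs `K_{μ,μ}` of sizes `μ ≥ 200000 k`. There is no condition on the shape of the
tree. For `k ≤ 25 * 10^6` the conditions `n ≥ 400 k^2`, `μ ≥ 200 k` are better.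
-/

namespace Pool.Agent.Results.MP_c5b475_co.FewNonLeafVertices

open Pool.Agent.Lib.MP_c5b475_co

/-- Let `T` be a tree with `n` edges and at most `k` non-leaf vertices (`k ≥ 1`), where
`n ≥ 10^10 k` and `m ≥ 200000 k`, or `n ≥ 400 k^2` and `m ≥ 200 k`. Let `G` be a finite `n`-regular
bipartite graph which either has a spanning subgraph whose components are complete bipartite graphs
`K_{μ,μ}` with `μ ≥ m` (of possibly different sizes), or is nearly complete: `m ≤ n` and
`4 m (|V| - 2 n) ≤ |V|` (for example `G = K_{n,n}`). Then `T` decomposes `G`. -/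
theorem result :
    ∀ (n k m : ℕ) (T : SimpleGraph (Fin (n + 1))), T.IsTree → 1 ≤ k →
      Nat.card {u // IsInner T u} ≤ k →
      (10 ^ 10 * k ≤ n ∧ 200000 * k ≤ m) ∨ (400 * k ^ 2 ≤ n ∧ 200 * k ≤ m) →
      ∀ (V : Type) [Fintype V] [DecidableEq V] (G : SimpleGraph V) [DecidableRel G.Adj],
        G.IsRegularOfDegree n →
          BlockFactor G (fun μ => m ≤ μ) ∨
            (G.IsBipartite ∧ m ≤ n ∧ 4 * m * (Fintype.card V - 2 * n) ≤ Fintype.card V) →
          Decomposes T G := by
  intro n k m T hT hk1 hk hnm V _ _ G _ hG hhost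
  have hf : BlockFactor G (fun μ => m ≤ μ) := by
    rcases hhost with hf | ⟨hb, hmn, hd⟩
    · exact hf
    · refine dense_blocks G hG hb ?_ hmn hd
      rcases hnm with ⟨_, h⟩ | ⟨_, h⟩ <;> omega
  rcases hnm with ⟨hn, hm⟩ | ⟨hn, hm⟩
  · exact all_linear_block hT hk1 hk hn G hG hm hf
  · exact all_sqrt_block hT hk1 hk hn G hG hm hf

/-- Special case: `K_{n,n}`. -/
theorem complete_bipartite (n k : ℕ) (T : SimpleGraph (Fin (n + 1))) (hT : T.IsTree) (h1 : 1 ≤ k)
    (hk : Nat.card {u // IsInner T u} ≤ k) (hn : 10 ^ 10 * k ≤ n ∨ 400 * k ^ 2 ≤ n) :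
    Decomposes T (completeBipartiteGraph (Fin n) (Fin n)) := by
  classical
  have hk2 : k ≤ k ^ 2 := Nat.le_self_pow (by norm_num) k
  have hn1 : 1 ≤ n := by rcases hn with h | h <;> omega
  have hf : BlockFactor (completeBipartiteGraph (Fin n) (Fin n)) (fun μ => n ≤ μ) := by
    obtain ⟨B, μ, e, h2, h3, h4, h5⟩ := factor_blocks hn1 le_rfl (complete_hasFactor n)
    exact ⟨B, μ, e, fun b => (h2 b).1, h3, h4, h5⟩
  refine result n k n T hT h1 hk ?_ _ _ (complete_regular n) (Or.inl hf)
  rcases hn with hn | hn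
  · exact Or.inl ⟨hn, by omega⟩
  · exact Or.inr ⟨hn, by omega⟩

end Pool.Agent.Results.MP_c5b475_co.FewNonLeafVertices
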