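import Pool.Agent.Lib.MP_c5b475_co.DiamFive

set_option autoImplicit false

/-!
# Lobsters decompose `K_{n,n}`

Every lobster with `n` edges (in particular every tree with `n` edges and diameter at most `5`)
decomposes `K_{n,n}`; more generally so does every tree with `n` edges that has an α-labelled core,
that is, a subtree containing all non-leaf vertices which has an α-labelling. The theorem `result` is
this for every `n`-regular bipartite host with a `K_{m,m}`-factor, `m` at least the number of edges of
the core (at least the number of non-leaf vertices for a lobster); `complete_bipartite` below is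
the special case `K_{n,n}`, `m = n`.

Proof: the core is placed cyclically; by the α-labelling every pair of core vertices on different
sides is joined by an edge of a core copy, so the remaining edges never join two core vertices of
the same copy, and the leaves can be hung by Galvin's theorem on list edge colourings of bipartite
multigraphs.
-/

namespace Pool.Agent.Results.MP_c5b475_co.LobstersCompleteBipartite

open Pool.Agent.Lib.MP_c5b475_co

/-- Let `T` be a tree with `n` edges and `G` an `n`-regular bipartite graph with a `K_{m,m}`-factor
(for example `G = K_{n,n}`, `m = n`). If `T` has an α-labelled core with at most `m` edges, or if `T`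
is a lobster or has diameter at most five and `T` has at most `m` non-leaf vertices, then `T`
decomposes `G`. -/
theorem result :
    ∀ (n : ℕ) (T : SimpleGraph (Fin (n + 1))), T.IsTree →
      ∀ (V : Type) [Fintype V] [DecidableEq V] (G : SimpleGraph V) [DecidableRel G.Adj],
        G.IsRegularOfDegree n → ∀ m : ℕ, HasFactor G m →
        ((∃ k, k ≤ m ∧ AlphaCore T k) ∨
          ((IsLobster T ∨ ∀ u v, T.dist u v ≤ 5) ∧ Nat.card {u // IsInner T u} ≤ m)) →
        Decomposes T G := by
  classical
  intro n T hT V _ _ G _ hG m hf h
  have key : IsLobster T → ∃ k, k ≤ Nat.card {u // IsInner T u} ∧ AlphaCore T k := by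
    intro h
    obtain ⟨k, hk, hc⟩ := lobster_core' hT h (Finset.univ.filter (fun u => IsInner T u))
      (fun u => by simp)
    refine ⟨k, ?_, hc⟩
    rw [Nat.card_eq_fintype_card, Fintype.card_subtype]
    exact hk
  rcases h with ⟨k, hk, h⟩ | ⟨h | h, hm⟩
  · exact core_factor hT h G hG hk hf
  · obtain ⟨k, hk, hc⟩ := key h
    exact core_factor hT hc G hG (hk.trans hm) hf
  · obtain ⟨k, hk, hc⟩ := key (lobster_of_diam hT h)
    exact core_factor hT hc G hG (hk.trans hm) hf

/-- Special case: lobsters and trees of diameter at most five decompose `K_{n,n}`. -/
theorem complete_bipartite (n : ℕ) (T : SimpleGraph (Fin (n + 1))) (hT : T.IsTree)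
    (h : IsLobster T ∨ ∀ u v, T.dist u v ≤ 5) :
    Decomposes T (completeBipartiteGraph (Fin n) (Fin n)) := by
  classical
  by_cases hn : Nat.card {u // IsInner T u} ≤ n
  · exact result n T hT _ _ (complete_regular n) n (complete_hasFactor n) (Or.inr ⟨h, hn⟩)
  · -- a tree has a leaf, so this case does not occur; it is also covered by the core itself
    have hl : IsLobster T := h.elim id (lobster_of_diam hT)
    obtain ⟨k, _, hc⟩ := lobster_core' hT hl (Finset.univ.filter (fun u => IsInner T u))
      (fun u => by simp)
    refine result n T hT _ _ (complete_regular n) n (complete_hasFactor n) (Or.inl ⟨k, ?_, hc⟩)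
    obtain ⟨I, f, lam, hcard, _⟩ := hc
    have := Finset.card_le_univ I
    rw [Fintype.card_fin] at this
    omega

end Pool.Agent.Results.MP_c5b475_co.LobstersCompleteBipartite
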