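import Pool.Agent.Lib.MP_c5b475_co.Few.Frame
import Pool.Agent.Lib.MP_c5b475_co.Few.FN2

set_option autoImplicit false

/-!
# Trees with many leaves in both colour classes decompose `K_{n,n}`

If a tree has at most `k` non-leaf vertices and each of its two colour classes contains at least
`30 k` leaves, then it decomposes every `n`-regular bipartite graph with a `K_{m,m}`-factor,
`m ≥ 60 k`; in particular it decomposes `K_{n,n}`. The bound is linear in `k`.
-/

namespace Pool.Agent.Results.MP_c5b475_co.ManyLeavesBothClasses

open Pool.Agent.Lib.MP_c5b475_co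

/-- Let `T` be a tree with `n` edges, properly 2-coloured, with at most `k` non-leaf vertices and at
least `30 k` leaves of each colour, and let `G` be a finite `n`-regular bipartite graph with a
`K_{m,m}`-factor, where `m ≥ 60 k` (for example `G = K_{n,n}`, where `n ≥ 60 k` holds automatically).
Then `T` decomposes `G`. -/
theorem result :
    ∀ (n k : ℕ) (T : SimpleGraph (Fin (n + 1))), T.IsTree → Nat.card {u // IsInner T u} ≤ k →
      ∀ cl : Fin (n + 1) → Bool, (∀ u v, T.Adj u v → cl u ≠ cl v) →
        (∀ a : Bool, 30 * k ≤ Nat.card {w // cl w = a ∧ ¬ IsInner T w}) →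
          ∀ (V : Type) [Fintype V] [DecidableEq V] (G : SimpleGraph V) [DecidableRel G.Adj],
            G.IsRegularOfDegree n → ∀ m : ℕ, 60 * k ≤ m → HasFactor G m →
              Decomposes T G := by
  classical
  intro n k T hT hk cl hcl hL V _ _ G _ hG m hm hf
  rcases Nat.eq_zero_or_pos k with rfl | hk0
  · -- no inner vertices at all
    have hno : ∀ u, ¬ IsInner T u := by
      intro u hu
      have : 0 < Nat.card {u // IsInner T u} := by
        have : Nonempty {u // IsInner T u} := ⟨⟨u, hu⟩⟩
        exact Nat.card_pos
      omega
    have hcore : AlphaCore T 0 := by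
      refine ⟨{0}, fun _ => 0, 0, by simp, ?_, ?_, ?_, ?_, ?_, ?_⟩
      · have hne : Nonempty ((({0} : Finset (Fin (n + 1))) : Set (Fin (n + 1))) : Type _) :=
          ⟨⟨0, by simp⟩⟩
        refine ⟨fun x y => ?_⟩
        have : x = y := by
          obtain ⟨x, hx⟩ := x
          obtain ⟨y, hy⟩ := y
          have hx' : x = 0 := by simpa using hx
          have hy' : y = 0 := by simpa using hy
          subst hx'
          subst hy'
          rfl
        rw [this]
      · intro u _ v w hv hw
        by_contra hne
        exact hno u ⟨v, w, hv, hw, hne⟩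
      · intro u _
        exact le_rfl
      · intro u hu v hv _
        rw [Finset.mem_singleton] at hu hv
        rw [hu, hv]
      · intro u hu v hv huv
        rw [Finset.mem_singleton] at hu hv
        rw [hu, hv] at huv
        exact absurd huv (T.loopless.irrefl 0)
      · intro u hu v hv _ _ _ _ huv
        rw [Finset.mem_singleton] at hu hv
        rw [hu, hv] at huv
        exact absurd huv (T.loopless.irrefl 0)
    exact core_factor hT hcore G hG (Nat.zero_le _) hf
  · let cl' : Fin (n + 1) → ZMod 2 := fun u => if cl u then 1 else 0
    have h1 : ∀ u v, T.Adj u v → cl' v = cl' u + 1 := by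
      intro u v huv
      have := hcl u v huv
      simp only [cl']
      cases hu : cl u <;> cases hv : cl v
      · exact absurd (hu.trans hv.symm) this
      · simp
      · simp only [if_true, Bool.false_eq_true, if_false]
        decide
      · exact absurd (hu.trans hv.symm) this
    have h2 : ∀ a : ZMod 2, 30 * k ≤ Nat.card {w // cl' w = a ∧ ¬ IsInner T w} := by
      intro a
      have h3 := hL (decide (a = 1))
      refine h3.trans (le_of_eq ?_)
      refine Nat.card_congr (Equiv.subtypeEquivRight fun w => ?_)
      have h4 : (cl w = decide (a = 1)) ↔ cl' w = a := by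
        simp only [cl']
        clear h3
        revert a
        cases cl w <;> decide
      rw [h4]
    exact frame (bothClasses hT k hk0 hk cl' h1 h2) G hG hm hf

/-- Special case: `K_{n,n}`. -/
theorem complete_bipartite (n k : ℕ) (T : SimpleGraph (Fin (n + 1))) (hT : T.IsTree)
    (hk : Nat.card {u // IsInner T u} ≤ k) (cl : Fin (n + 1) → Bool)
    (hcl : ∀ u v, T.Adj u v → cl u ≠ cl v)
    (hL : ∀ a : Bool, 30 * k ≤ Nat.card {w // cl w = a ∧ ¬ IsInner T w}) :
    Decomposes T (completeBipartiteGraph (Fin n) (Fin n)) := by
  classical
  refine result n k T hT hk cl hcl hL _ _ (complete_regular n) n ?_ (complete_hasFactor n)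
  rcases Nat.eq_zero_or_pos k with rfl | hk0
  · omega
  have h0 := hL false
  have h1 := hL true
  rw [Nat.card_eq_fintype_card, Fintype.card_subtype] at h0 h1
  have h2 : (Finset.univ.filter (fun w => cl w = false ∧ ¬ IsInner T w)).card +
      (Finset.univ.filter (fun w => cl w = true ∧ ¬ IsInner T w)).card ≤
        (Finset.univ.filter (fun w => ¬ IsInner T w)).card := by
    rw [← Finset.card_union_of_disjoint]
    · apply Finset.card_le_card
      intro w hw
      rw [Finset.mem_union, Finset.mem_filter, Finset.mem_filter] at hw
      rw [Finset.mem_filter]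
      exact ⟨Finset.mem_univ _, hw.elim (fun h => h.2.2) (fun h => h.2.2)⟩
    · rw [Finset.disjoint_left]
      intro w hw hw'
      rw [Finset.mem_filter] at hw hw'
      have := hw.2.1.symm.trans hw'.2.1
      exact absurd this (by decide)
  have h3 : (Finset.univ.filter (fun w : Fin (n + 1) => ¬ IsInner T w)).card ≤ n + 1 := by
    refine (Finset.card_le_univ _).trans ?_
    rw [Fintype.card_fin]
  by_contra hlt
  -- then all vertices are leaves, which is impossible for more than two vertices
  have h4 : (Finset.univ.filter (fun w : Fin (n + 1) => ¬ IsInner T w)) = Finset.univ := by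
    apply Finset.eq_univ_of_card
    rw [Fintype.card_fin]
    omega
  have hall : ∀ w : Fin (n + 1), ¬ IsInner T w := by
    intro w
    have : w ∈ Finset.univ.filter (fun w : Fin (n + 1) => ¬ IsInner T w) := by
      rw [h4]; exact Finset.mem_univ _
    exact (Finset.mem_filter.mp this).2
  have hn : 3 ≤ n + 1 := by omega
  -- a tree with at least three vertices has an inner vertex
  have hsum := T.sum_degrees_eq_twice_card_edges
  have hedges := hT.card_edgeFinset
  rw [Fintype.card_fin] at hedges
  have hdeg : ∀ v : Fin (n + 1), T.degree v ≤ 1 := by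
    intro v
    by_contra hv
    push Not at hv
    rw [← SimpleGraph.card_neighborFinset_eq_degree] at hv
    obtain ⟨x, hx, y, hy, hxy⟩ := Finset.one_lt_card.mp hv
    rw [SimpleGraph.mem_neighborFinset] at hx hy
    exact hall v ⟨x, y, hx, hy, hxy⟩
  have h5 : ∑ v : Fin (n + 1), T.degree v ≤ ∑ _v : Fin (n + 1), 1 :=
    Finset.sum_le_sum fun v _ => hdeg v
  simp only [Finset.sum_const, Finset.card_univ, Fintype.card_fin, smul_eq_mul, mul_one] at h5
  omega

end Pool.Agent.Results.MP_c5b475_co.ManyLeavesBothClasses
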